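import Pool.Agent.Lib.MP_49fa77_co.H30.Iface

/-!
# PK: the packing lattice of the rhombus bodies
-/

set_option autoImplicit false

namespace FT58.AS.H67

open Real MeasureTheory Set Metric Filter Relation FT58 FT58.AS

lemma quad_ge {g X Y : ℝ} (hg : 3 * g ^ 2 = 4) (hg0 : 0 < g)
    (h : 2 * g ≤ X ∨ X ≤ -(2 * g) ∨ 2 * g ≤ Y ∨ Y ≤ -(2 * g) ∨ 2 * g ≤ X + Y ∨
      X + Y ≤ -(2 * g)) : 4 ≤ X ^ 2 + X * Y + Y ^ 2 := by
  have key : ∀ t : ℝ, (2 * g ≤ t ∨ t ≤ -(2 * g)) → 4 * g ^ 2 ≤ t ^ 2 := by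
    intro t ht
    rcases ht with ht | ht <;> nlinarith
  rcases h with h | h | h | h | h | h
  · have := key X (Or.inl h)
    nlinarith [sq_nonneg (2 * Y + X)]
  · have := key X (Or.inr h)
    nlinarith [sq_nonneg (2 * Y + X)]
  · have := key Y (Or.inl h)
    nlinarith [sq_nonneg (2 * X + Y)]
  · have := key Y (Or.inr h)
    nlinarith [sq_nonneg (2 * X + Y)]
  · have := key (X + Y) (Or.inl h)
    nlinarith [sq_nonneg (X - Y)]
  · have := key (X + Y) (Or.inr h)
    nlinarith [sq_nonneg (X - Y)]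

lemma coord_case {p g x y : ℝ} (hp : 0 ≤ p) (hg0 : 0 < g) (hx : |x| ≤ 1) (hy : |y| ≤ 1)
    (q : ℤ × ℤ) (hq : q ≠ 0) (X Y : ℝ)
    (hX : X = p * x + q.1 * (p + 2 * g) - q.2 * g)
    (hY : Y = p * y - q.1 * g + q.2 * (p + 2 * g)) :
    2 * g ≤ X ∨ X ≤ -(2 * g) ∨ 2 * g ≤ Y ∨ Y ≤ -(2 * g) ∨ 2 * g ≤ X + Y ∨
      X + Y ≤ -(2 * g) := by
  obtain ⟨a, b⟩ := q
  simp only at hX hY
  obtain ⟨hx1, hx2⟩ := abs_le.mp hx
  obtain ⟨hy1, hy2⟩ := abs_le.mp hy
  have px1 : -p ≤ p * x := by nlinarith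
  have px2 : p * x ≤ p := by nlinarith
  have py1 : -p ≤ p * y := by nlinarith
  have py2 : p * y ≤ p := by nlinarith
  have hk : 0 < p + 2 * g := by linarith
  rcases lt_trichotomy a 0 with ha | ha | ha
  · have ha' : (a : ℝ) ≤ -1 := by exact_mod_cast (by omega : a ≤ -1)
    have h1 : (a : ℝ) * (p + 2 * g) ≤ -(p + 2 * g) := by nlinarith
    have h1g : (a : ℝ) * (p + g) ≤ -(p + g) := by nlinarith
    rcases le_or_gt 0 b with hb | hb
    · have hb' : (0 : ℝ) ≤ b := by exact_mod_cast hb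
      have h2 : 0 ≤ (b : ℝ) * g := by positivity
      right; left
      rw [hX]; linarith
    · have hb' : (b : ℝ) ≤ -1 := by exact_mod_cast (by omega : b ≤ -1)
      have h2 : (b : ℝ) * (p + g) ≤ -(p + g) := by nlinarith
      right; right; right; right; right
      have : X + Y = p * x + p * y + a * (p + g) + b * (p + g) := by rw [hX, hY]; ring
      rw [this]; linarith
  · subst ha
    have hb0 : b ≠ 0 := by
      rintro rfl
      exact hq rfl
    rcases lt_or_gt_of_ne hb0 with hb | hb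
    · have hb' : (b : ℝ) ≤ -1 := by exact_mod_cast (by omega : b ≤ -1)
      have h2 : (b : ℝ) * (p + 2 * g) ≤ -(p + 2 * g) := by nlinarith
      right; right; right; left
      rw [hY]; push_cast; linarith
    · have hb' : (1 : ℝ) ≤ b := by exact_mod_cast (by omega : 1 ≤ b)
      have h2 : (p + 2 * g) ≤ (b : ℝ) * (p + 2 * g) := by nlinarith
      right; right; left
      rw [hY]; push_cast; linarith
  · have ha' : (1 : ℝ) ≤ a := by exact_mod_cast (by omega : 1 ≤ a)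
    have h1 : (p + 2 * g) ≤ (a : ℝ) * (p + 2 * g) := by nlinarith
    have h1g : (p + g) ≤ (a : ℝ) * (p + g) := by nlinarith
    rcases le_or_gt b 0 with hb | hb
    · have hb' : (b : ℝ) ≤ 0 := by exact_mod_cast hb
      have h2 : (b : ℝ) * g ≤ 0 := mul_nonpos_of_nonpos_of_nonneg hb' hg0.le
      left
      rw [hX]; linarith
    · have hb' : (1 : ℝ) ≤ b := by exact_mod_cast (by omega : 1 ≤ b)
      have h2 : (p + g) ≤ (b : ℝ) * (p + g) := by nlinarith
      right; right; right; right; left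
      have : X + Y = p * x + p * y + a * (p + g) + b * (p + g) := by rw [hX, hY]; ring
      rw [this]; linarith

theorem pk_st : PkS := by
  intro p hp
  have hs : (√3 : ℝ) ^ 2 = 3 := Real.sq_sqrt (by norm_num)
  have hs0 : (0 : ℝ) < √3 := Real.sqrt_pos.mpr (by norm_num)
  have hg : 3 * (2 / √3 : ℝ) ^ 2 = 4 := by
    rw [div_pow, hs]; norm_num
  have hg0 : (0 : ℝ) < 2 / √3 := by positivity
  have h4 : (4 / √3 : ℝ) = 2 * (2 / √3) := by ring
  have hg1 : (2 / √3 : ℝ) * √3 = 2 := by field_simp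
  refine ⟨?_, ?_⟩
  · intro x y hx hy q hq
    set X : ℝ := p * x + q.1 * (p + 2 * (2 / √3)) - q.2 * (2 / √3) with hX
    set Y : ℝ := p * y - q.1 * (2 / √3) + q.2 * (p + 2 * (2 / √3)) with hY
    have hz : (p : ℂ) * (x + y * om) + lv (la p) (lb p) q = (X : ℂ) + (Y : ℂ) * om := by
      rw [hX, hY]
      unfold lv la lb
      rw [h4]
      push_cast
      ring
    have hn : ‖(X : ℂ) + (Y : ℂ) * om‖ ^ 2 = X ^ 2 + X * Y + Y ^ 2 := by
      rw [← Complex.normSq_eq_norm_sq, Complex.normSq_apply]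
      have hre : ((X : ℂ) + (Y : ℂ) * om).re = X + Y * (1 / 2) := by
        simp [om]
      have him : ((X : ℂ) + (Y : ℂ) * om).im = Y * (√3 / 2) := by
        simp [om]
      rw [hre, him]
      linear_combination (Y ^ 2 / 4) * hs
    have h := quad_ge hg hg0 (coord_case hp hg0 hx hy q hq X Y rfl rfl)
    rw [hz]
    have h2 : (2 : ℝ) ^ 2 ≤ ‖(X : ℂ) + (Y : ℂ) * om‖ ^ 2 := by
      rw [hn]; linarith
    exact le_of_sq_le_sq h2 (norm_nonneg _)
  · have e1 : (la p).re = (p + 4 / √3) - (2 / √3) * (1 / 2) := by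
      simp [la, om]
    have e2 : (la p).im = -((2 / √3) * (√3 / 2)) := by
      simp [la, om]
    have e3 : (lb p).re = -(2 / √3) + (p + 4 / √3) * (1 / 2) := by
      simp [lb, om]
    have e4 : (lb p).im = (p + 4 / √3) * (√3 / 2) := by
      simp [lb, om]
    rw [e1, e2, e3, e4, h4]
    have h3 : (2 / √3 : ℝ) = 2 / 3 * √3 := by
      field_simp
      linarith
    rw [h3]
    ring_nf
    rw [show (√3 : ℝ) ^ 3 = √3 * √3 ^ 2 by ring, hs]
    ring

end FT58.AS.H67
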