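import Pool.Agent.Lib.MP_49fa77_co.H30.Iface3

/-!
# Row GS: the sum over outer edges
-/

set_option autoImplicit false

namespace FT58.AS.H67

open Real Finset FT58

lemma gg_lower {D a : ℝ} (hD1 : D ≤ 1) (h0 : 0 ≤ a) (h1 : a ≤ 1) :
    a ^ 3 / 12 - 2 * (1 - D) * a - kap D ≤ gg D a := by
  rw [gg_eq, GG_eq]
  have h2 := Delta_lower h0 h1
  have h3 := Ar_upper h0 h1
  have h4 : a ^ 3 / 12 ≤ Pa a := by
    unfold Pa
    have p5 : 0 ≤ a ^ 5 := by positivity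
    have p7 : 0 ≤ a ^ 7 := by positivity
    have p9 : 0 ≤ a ^ 9 := by positivity
    linarith
  have h5 : Ar a ≤ 2 * a := by
    have p3 : 0 ≤ a ^ 3 := by positivity
    have p5 : 0 ≤ a ^ 5 := by positivity
    linarith
  have h6 : (1 - D) * Ar a ≤ (1 - D) * (2 * a) :=
    mul_le_mul_of_nonneg_left h5 (by linarith)
  linarith

lemma sE_filter (P : Finset ℂ) (X : ℂ → ℂ → Prop) (h : ℂ → ℂ → ℝ) :
    sE P X h = open Classical in ∑ x ∈ (P ×ˢ P).filter (fun x => X x.1 x.2), h x.1 x.2 := by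
  classical
  unfold sE
  rw [Finset.sum_filter, Finset.sum_product]

/-- Row GS. -/
theorem gs_st : GsS := by
  classical
  intro D S X _ hD1 hX
  obtain ⟨s, hs0, hs2, hs3⟩ : ∃ s : ℝ, 0 ≤ s ∧ s ^ 2 = 1 - D ∧ (1 - D) * √(1 - D) = s ^ 3 := by
    have h1 : √(1 - D) ^ 2 = 1 - D := sq_sqrt (by linarith)
    refine ⟨√(1 - D), sqrt_nonneg _, h1, ?_⟩
    calc (1 - D) * √(1 - D) = √(1 - D) ^ 2 * √(1 - D) := by rw [h1]
      _ = √(1 - D) ^ 3 := by ring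
  rw [hs3]
  set F : Finset (ℂ × ℂ) := (S ×ˢ S).filter (fun x => X x.1 x.2) with hF
  have hcard : (nE S X : ℝ) = (F.card : ℝ) := by
    unfold nE
    rw [hF]
  have hsum : ∀ h : ℂ → ℂ → ℝ, sE S X h = ∑ x ∈ F, h x.1 x.2 := by
    intro h
    rw [sE_filter, hF]
  have key : ∀ x ∈ F, -(kap D + 4 * s ^ 3) ≤ gs D x.1 x.2 ∧
      -(kap D + 6 * s ^ 3) + ln x.1 x.2 ^ 3 / 192 ≤ gs D x.1 x.2 := by
    intro x hx
    have hx2 : X x.1 x.2 := (Finset.mem_filter.mp hx).2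
    obtain ⟨hne, hsh⟩ := hX _ _ hx2
    have hl : ln x.1 x.2 = ‖x.2 - x.1‖ := rfl
    have hsh' : ‖x.2 - x.1‖ < 2 := hsh
    set a : ℝ := ‖x.2 - x.1‖ / 2 with ha
    have ha0 : 0 ≤ a := by positivity
    have ha1 : a ≤ 1 := by linarith
    have h1 := gg_lower hD1 ha0 ha1
    have h2 : gs D x.1 x.2 = gg D a := rfl
    have hl2 : ln x.1 x.2 = 2 * a := by rw [hl, ha]; ring
    rw [h2, hl2]
    rw [← hs2] at h1
    constructor
    · have h3 : 0 ≤ (a - 2.83 * s) ^ 2 * (a + 5.66 * s) := by positivity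
      have h4 : 0 ≤ s ^ 2 * a := by positivity
      have h5 : 0 ≤ s ^ 3 := by positivity
      nlinarith
    · have h3 : 0 ≤ (a - 4 * s) ^ 2 * (a + 8 * s) := by positivity
      have h5 : 0 ≤ s ^ 3 := by positivity
      nlinarith
  constructor
  · rw [hsum, hcard]
    calc -(kap D + 4 * s ^ 3) * (F.card : ℝ) = ∑ _x ∈ F, -(kap D + 4 * s ^ 3) := by
          rw [Finset.sum_const, nsmul_eq_mul]; ring
      _ ≤ _ := Finset.sum_le_sum fun x hx => (key x hx).1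
  · rw [hsum, hsum, hcard]
    have h1 : ∑ x ∈ F, (-(kap D + 6 * s ^ 3) + ln x.1 x.2 ^ 3 / 192) ≤ ∑ x ∈ F, gs D x.1 x.2 :=
      Finset.sum_le_sum fun x hx => (key x hx).2
    rw [Finset.sum_add_distrib, Finset.sum_const, nsmul_eq_mul, ← Finset.sum_div] at h1
    have h2 : (∑ x ∈ F, ln x.1 x.2) ^ (2 + 1) / (F.card : ℝ) ^ 2 ≤
        ∑ x ∈ F, ln x.1 x.2 ^ (2 + 1) :=
      pow_sum_div_card_le_sum_pow (fun x _ => norm_nonneg _) 2
    have h3 : (∑ x ∈ F, ln x.1 x.2) ^ 3 / (192 * (F.card : ℝ) ^ 2) =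
        (∑ x ∈ F, ln x.1 x.2) ^ (2 + 1) / (F.card : ℝ) ^ 2 / 192 := by
      rw [div_div, mul_comm]
    rw [h3]
    have h4 : (∑ x ∈ F, ln x.1 x.2) ^ (2 + 1) / (F.card : ℝ) ^ 2 / 192 ≤
        (∑ x ∈ F, ln x.1 x.2 ^ 3) / 192 :=
      div_le_div_of_nonneg_right h2 (by norm_num)
    linarith

end FT58.AS.H67
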